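import Pool.Agent.helper88.RF.SpecW
import Pool.Agent.helper77.FT.P6c

set_option autoImplicit false

open Finset

namespace Pool.Agent.RF

theorem WC3_abs {a1 k1 k2 z1 z2 s A X Z : ℝ} (h1 : |a1| ≤ A) (h2 : |k1| ≤ X) (h3 : |k2| ≤ X) (h4 : |z1| ≤ Z)
    (h5 : |z2| ≤ Z) (h6 : |s| ≤ 2) :
    |5 * a1 * (k1 * k1 * k1) + 2 * s * z1 * k1 * (k2 * k2) - z2 * (k2 * k2 * k2)| ≤ 5 * A * X ^ 3 + 5 * Z * X ^ 3 := by
  have hA : 0 ≤ A := (abs_nonneg _).trans h1
  have hX : 0 ≤ X := (abs_nonneg _).trans h2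
  have hZ : 0 ≤ Z := (abs_nonneg _).trans h4
  calc |5 * a1 * (k1 * k1 * k1) + 2 * s * z1 * k1 * (k2 * k2) - z2 * (k2 * k2 * k2)|
      ≤ |5 * a1 * (k1 * k1 * k1) + 2 * s * z1 * k1 * (k2 * k2)| + |z2 * (k2 * k2 * k2)| := abs_sub _ _
    _ ≤ |5 * a1 * (k1 * k1 * k1)| + |2 * s * z1 * k1 * (k2 * k2)| + |z2 * (k2 * k2 * k2)| := by
        gcongr
        exact abs_add_le _ _
    _ = 5 * |a1| * (|k1| * |k1| * |k1|) + 2 * |s| * |z1| * |k1| * (|k2| * |k2|) + |z2| * (|k2| * |k2| * |k2|) := by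
        simp only [abs_mul, Nat.abs_ofNat]
    _ ≤ 5 * A * (X * X * X) + 2 * 2 * Z * X * (X * X) + Z * (X * X * X) := by gcongr
    _ = _ := by ring

theorem WC3_ph : |va ph| ≤ 2 ∧ |vb ph| ≤ 2 := by
  have h1 : √(5 : ℝ) ≤ 3 := by
    rw [Real.sqrt_le_left (by norm_num)]
    norm_num
  have h2 : 0 ≤ √(5 : ℝ) := Real.sqrt_nonneg _
  unfold va vb ph
  simp only [Int.cast_zero, Int.cast_one, zero_add, one_mul]
  refine ⟨?_, ?_⟩
  · rw [abs_le]
    constructor <;> linarith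
  · rw [abs_le]
    constructor <;> linarith

theorem WC3_sz (hWVA : WVA_stmt) {k a z : OO} {A Z X : ℝ} (a1 : |va a| ≤ A) (a2 : |vb a| ≤ A) (k1 : |va k| ≤ X)
    (k2 : |vb k| ≤ X) (z1 : |va z| ≤ Z) (z2 : |vb z| ≤ Z) :
    |va (FF k a z)| ≤ 5 * A * X ^ 3 + 5 * Z * X ^ 3 ∧ |vb (FF k a z)| ≤ 5 * A * X ^ 3 + 5 * Z * X ^ 3 := by
  obtain ⟨hm, hm', hadd, hint, hstar, -, -⟩ := hWVA
  have e : FF k a z = ((5 : ℤ) : OO) * a * (k * k * k) + ((2 : ℤ) : OO) * star ph * z * k * (star k * star k) -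
      star z * (star k * star k * star k) := by
    unfold FF
    push_cast
    ring
  have e1 : va (FF k a z) = 5 * va a * (va k * va k * va k) + 2 * vb ph * va z * va k * (vb k * vb k) -
      vb z * (vb k * vb k * vb k) := by
    rw [e, (hadd _ _).2.1, (hadd _ _).1]
    simp only [hm, (hint _).1, (hstar _).1]
    push_cast
    ring
  have e2 : vb (FF k a z) = 5 * vb a * (vb k * vb k * vb k) + 2 * va ph * vb z * vb k * (va k * va k) -
      va z * (va k * va k * va k) := by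
    rw [e, (hadd _ _).2.2.2, (hadd _ _).2.2.1]
    simp only [hm', (hint _).2, (hstar _).2]
    push_cast
    ring
  rw [e1, e2]
  exact ⟨WC3_abs a1 k1 k2 z1 z2 WC3_ph.2, WC3_abs a2 k2 k1 z2 z1 WC3_ph.1⟩

/-- **Row WC3**: degenerate dual points -/
theorem WC3 (hWDG : WDG_stmt) (hWBX : WBX_stmt) (hWVA : WVA_stmt) : WC3_stmt := by
  classical
  intro C₁ ε hC₁ hε
  obtain ⟨CD, hCD, hD⟩ := hWDG (ε / 2) (by positivity)
  obtain ⟨CB, hCB, hB⟩ := hWBX
  obtain ⟨CH, hCH, hH⟩ := helper3.FT.P6c_div (ε / 2) (by positivity) (14400 * C₁ ^ 2)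
    (by nlinarith) 10
  set m : ℕ := 2 * ⌈C₁⌉₊ with hm
  have hm1 : (1 : ℝ) ≤ ⌈C₁⌉₊ := hC₁.trans (Nat.le_ceil _)
  have hmC : C₁ ≤ ⌈C₁⌉₊ := Nat.le_ceil _
  have hmr : (m : ℝ) = 2 * (⌈C₁⌉₊ : ℝ) := by rw [hm]; push_cast; ring
  have hm2 : (2 : ℝ) ≤ m := by rw [hmr]; linarith
  have hme : 1 ≤ (m : ℝ) ^ (ε / 2) := Real.one_le_rpow (by linarith) (by positivity)
  refine ⟨CD * (m : ℝ) ^ (ε / 2) * C₁ ^ 2 * (4 * CB) * CH, ?_, ?_⟩
  · have h1 : 1 ≤ CD * (m : ℝ) ^ (ε / 2) := one_le_mul_of_one_le_of_one_le hCD hme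
    have h2 : 1 ≤ C₁ ^ 2 := one_le_pow₀ hC₁
    have h3 : 1 ≤ 4 * CB := by linarith
    exact one_le_mul_of_one_le_of_one_le (one_le_mul_of_one_le_of_one_le (one_le_mul_of_one_le_of_one_le h1 h2) h3) hCH
  intro T Q P G L g hQ hQT hP hPT hG hGT hL hLT hg hg1 hg2 S hS
  have hT1 : (1 : ℝ) ≤ T := hG.trans hGT
  have hTn : 1 ≤ T := by exact_mod_cast hT1
  have hQ1 : (1 : ℝ) ≤ Q := by exact_mod_cast hQ
  have hQTr : (Q : ℝ) ≤ T := by exact_mod_cast hQT
  have hGL : G * L ≤ (T : ℝ) ^ 2 := by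
    rw [sq]
    exact mul_le_mul hGT hLT (by linarith) (by linarith)
  have hGL1 : 1 ≤ G * L := one_le_mul_of_one_le_of_one_le hG hL
  have hmT : (1 : ℝ) ≤ (m : ℝ) * T := one_le_mul_of_one_le_of_one_le (by linarith) hT1
  -- the vectors (e, z)
  have n1 : ((S.image fun t => t.2.2).card : ℝ) ≤ CD * ((m * T : ℕ) : ℝ) ^ (ε / 2) * (C₁ * L) ^ 2 := by
    refine hD (m * T) (C₁ * L) (C₁ * (G * L)) g ?_ ?_ ?_ ?_ ?_ hg ?_ ?_ _ ?_
    · exact_mod_cast hmT
    · exact one_le_mul_of_one_le_of_one_le hC₁ hL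
    · push_cast
      calc C₁ * L ≤ m * T := mul_le_mul (by rw [hmr]; linarith) hLT (by linarith) (by linarith)
        _ = _ := rfl
    · exact one_le_mul_of_one_le_of_one_le hC₁ hGL1
    · push_cast
      calc C₁ * (G * L) ≤ m * (T : ℝ) ^ 2 := mul_le_mul (by rw [hmr]; linarith) hGL (by linarith) (by linarith)
        _ ≤ (m : ℝ) ^ 3 * (T : ℝ) ^ 3 := by
            have h1 : (m : ℝ) ≤ (m : ℝ) ^ 3 := by
              nlinarith [mul_self_nonneg ((m : ℝ) - 1), mul_nonneg (mul_nonneg (by linarith : (0:ℝ) ≤ m) (by linarith : (0:ℝ) ≤ (m:ℝ) - 1)) (by linarith : (0:ℝ) ≤ (m:ℝ)+1)]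
            have h2 : (T : ℝ) ^ 2 ≤ (T : ℝ) ^ 3 := pow_le_pow_right₀ hT1 (by norm_num)
            exact mul_le_mul h1 h2 (by positivity) (by positivity)
        _ = _ := by ring
    · push_cast
      calc |va g| ≤ 2 * G := hg1
        _ ≤ m * T := mul_le_mul hm2 hGT (by linarith) (by linarith)
        _ ≤ (m * T : ℝ) ^ 2 := by
            rw [sq]
            exact le_mul_of_one_le_left (by linarith) hmT
    · push_cast
      calc |vb g| ≤ 2 * G := hg2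
        _ ≤ m * T := mul_le_mul hm2 hGT (by linarith) (by linarith)
        _ ≤ (m * T : ℝ) ^ 2 := by
            rw [sq]
            exact le_mul_of_one_le_left (by linarith) hmT
    · intro t ht
      obtain ⟨x, hx, rfl⟩ := mem_image.1 ht
      obtain ⟨-, -, -, h1, h2, h3, h4, -, h5, h6⟩ := hS x hx
      refine ⟨h1, h2, h3, h4, ?_, h6⟩
      intro h0
      apply h5
      have h7 : x.2.2.1 = 0 := congrArg Prod.fst h0
      have h8 : x.2.2.2 = 0 := congrArg Prod.snd h0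
      rw [h7, h8]
      unfold FF
      simp
  -- the moduli k
  have n2 : ((S.image fun t => t.2.1).card : ℝ) ≤ CB * (2 * √(Q : ℝ)) ^ 2 := by
    refine hB (2 * √(Q : ℝ)) ?_ _ ?_
    · have : 1 ≤ √(Q : ℝ) := Real.one_le_sqrt.2 hQ1
      linarith
    · intro k hk
      obtain ⟨x, hx, rfl⟩ := mem_image.1 hk
      exact ⟨(hS x hx).2.2.1.ba, (hS x hx).2.2.1.bb⟩
  have n2' : (2 * √(Q : ℝ)) ^ 2 = 4 * Q := by
    rw [mul_pow, Real.sq_sqrt (by linarith)]
    norm_num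
  -- the frequencies
  have n3 : ∀ b ∈ S.image (fun t => t.2), ((S.filter fun t => t.2 = b).card : ℝ) ≤ CH * (T : ℝ) ^ (ε / 2) := by
    intro b hb
    obtain ⟨y, hy, rfl⟩ := mem_image.1 hb
    obtain ⟨-, -, hk, e1, e2, z1, z2, -, hne, -⟩ := hS y hy
    set f : OO := FF y.2.1 (g * y.2.2.1) y.2.2.2 with hf
    have hn0 : f.norm ≠ 0 := (hWVA.2.2.2.2.2.2 f hne).1
    have hsT : √(Q : ℝ) ≤ T := by
      calc √(Q : ℝ) ≤ Q := by
            rw [Real.sqrt_le_left (by linarith)]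
            nlinarith
        _ ≤ T := hQTr
    have hka : |va y.2.1| ≤ 2 * T := hk.ba.trans (by linarith)
    have hkb : |vb y.2.1| ≤ 2 * T := hk.bb.trans (by linarith)
    have hLT' : C₁ * L ≤ C₁ * T := mul_le_mul_of_nonneg_left hLT (by linarith)
    have haa : |va (g * y.2.2.1)| ≤ 2 * C₁ * (T : ℝ) ^ 2 := by
      rw [hWVA.1, abs_mul]
      calc |va g| * |va y.2.2.1| ≤ (2 * T) * (C₁ * T) :=
            mul_le_mul (hg1.trans (by linarith)) (e1.trans hLT') (abs_nonneg _) (by linarith)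
        _ = _ := by ring
    have hab : |vb (g * y.2.2.1)| ≤ 2 * C₁ * (T : ℝ) ^ 2 := by
      rw [hWVA.2.1, abs_mul]
      calc |vb g| * |vb y.2.2.1| ≤ (2 * T) * (C₁ * T) :=
            mul_le_mul (hg2.trans (by linarith)) (e2.trans hLT') (abs_nonneg _) (by linarith)
        _ = _ := by ring
    have hza : |va y.2.2.2| ≤ C₁ * (T : ℝ) ^ 2 := z1.trans (mul_le_mul_of_nonneg_left hGL (by linarith))
    have hzb : |vb y.2.2.2| ≤ C₁ * (T : ℝ) ^ 2 := z2.trans (mul_le_mul_of_nonneg_left hGL (by linarith))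
    obtain ⟨f1, f2⟩ := WC3_sz hWVA haa hab hka hkb hza hzb
    have hfb : ((f.norm.natAbs : ℕ) : ℝ) ≤ 14400 * C₁ ^ 2 * (T : ℝ) ^ 10 := by
      have h1 : ((f.norm.natAbs : ℕ) : ℝ) = |va f| * |vb f| := by
        rw [← abs_mul, hWVA.2.2.2.2.2.1, Nat.cast_natAbs, Int.cast_abs]
      rw [h1]
      calc |va f| * |vb f| ≤ (120 * C₁ * (T : ℝ) ^ 5) * (120 * C₁ * (T : ℝ) ^ 5) := by
            refine mul_le_mul (f1.trans_eq ?_) (f2.trans_eq ?_) (abs_nonneg _) (by positivity)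
            · ring
            · ring
        _ = _ := by ring
    have hd := hH T hTn f.norm.natAbs (Int.natAbs_pos.2 hn0) hfb
    refine le_trans ?_ hd
    have hle : (S.filter fun t => t.2 = y.2).card ≤ f.norm.natAbs.divisors.card := by
      refine card_le_card_of_injOn (fun t => t.1) ?_ ?_
      · intro t ht
        rw [mem_coe, mem_filter] at ht
        obtain ⟨ht1, ht2⟩ := ht
        rw [mem_coe, Nat.mem_divisors]
        refine ⟨?_, Int.natAbs_ne_zero.2 hn0⟩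
        have h1 : (t.1 : OO) ∣ f := by
          have := (hS t ht1).2.2.2.2.2.2.2.1
          rw [ht2] at this
          exact this
        obtain ⟨x, hx⟩ := h1
        have h2 : f.norm = (t.1 : ℤ) ^ 2 * x.norm := by
          rw [hx, map_mul, QuadraticAlgebra.norm_natCast]
        have h3 : (t.1 : ℤ) ∣ f.norm := by
          rw [h2, sq, mul_assoc]
          exact dvd_mul_right _ _
        exact Int.natCast_dvd.1 h3
      · intro t ht t' ht' h
        rw [mem_coe, mem_filter] at ht ht'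
        exact Prod.ext h (ht.2.trans ht'.2.symm)
    exact_mod_cast hle
  have hTe : (0 : ℝ) ≤ (T : ℝ) ^ (ε / 2) := by positivity
  have hCT : 0 ≤ CH * (T : ℝ) ^ (ε / 2) := by positivity
  have hc : (S.card : ℝ) ≤ ((S.image fun t => t.2).card : ℝ) * (CH * (T : ℝ) ^ (ε / 2)) := by
    rw [card_eq_sum_card_image (fun t => t.2) S]
    push_cast
    calc ∑ b ∈ S.image (fun t => t.2), ((S.filter fun t => t.2 = b).card : ℝ)
        ≤ ∑ _b ∈ S.image (fun t => t.2), CH * (T : ℝ) ^ (ε / 2) := sum_le_sum n3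
      _ = _ := by rw [sum_const, nsmul_eq_mul]
  have hpr : ((S.image fun t => t.2).card : ℝ) ≤ ((S.image fun t => t.2.1).card : ℝ) * ((S.image fun t => t.2.2).card : ℝ) := by
    have h1 : (S.image fun t => t.2) ⊆ (S.image fun t => t.2.1) ×ˢ (S.image fun t => t.2.2) := by
      intro b hb
      obtain ⟨y, hy, rfl⟩ := mem_image.1 hb
      exact mem_product.2 ⟨mem_image_of_mem _ hy, mem_image_of_mem _ hy⟩
    have h2 := card_le_card h1
    rw [card_product] at h2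
    exact_mod_cast h2
  have hpow : ((m * T : ℕ) : ℝ) ^ (ε / 2) = (m : ℝ) ^ (ε / 2) * (T : ℝ) ^ (ε / 2) := by
    push_cast
    exact Real.mul_rpow (by positivity) (by positivity)
  have hTT : (T : ℝ) ^ ε = (T : ℝ) ^ (ε / 2) * (T : ℝ) ^ (ε / 2) := by
    rw [← Real.rpow_add (by linarith)]
    congr 1
    ring
  rw [n2'] at n2
  rw [hpow] at n1
  calc (S.card : ℝ) ≤ ((S.image fun t => t.2).card : ℝ) * (CH * (T : ℝ) ^ (ε / 2)) := hc
    _ ≤ (((S.image fun t => t.2.1).card : ℝ) * ((S.image fun t => t.2.2).card : ℝ)) * (CH * (T : ℝ) ^ (ε / 2)) :=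
        mul_le_mul_of_nonneg_right hpr hCT
    _ ≤ ((CB * (4 * Q)) * (CD * ((m : ℝ) ^ (ε / 2) * (T : ℝ) ^ (ε / 2)) * (C₁ * L) ^ 2)) * (CH * (T : ℝ) ^ (ε / 2)) :=
        mul_le_mul_of_nonneg_right (mul_le_mul n2 n1 (by positivity) (by positivity)) hCT
    _ = _ := by
        rw [hTT]
        ring

end Pool.Agent.RF
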